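import Pool.Agent.Lib.MP_182bbb_co.H5.Core

/-!
# MP_182bbb_co, strict 3-uniform tight trees: coded 2-trees and basic definitions

A 2-tree with `N` triangles is coded by a function `b : ℕ → ℕ`. Vertices `0, ..., N+1`, edges
`0, ..., 2N`. Edge `0` is `(0, 1)`. Triangle `i` (`i < N`) consists of the new vertex `i + 2` and
the two ends of its base edge `bs b i` (an edge with number `≤ 2 i`); it creates the two edges
`2i+1` and `2i+2`, joining `i + 2` to the first, respectively to the second end of the base edge.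
-/

open Finset

namespace MP_182bbb_co.TT

open MP_182bbb_co.H5

/-! ### Counting -/

section Count

variable {V : Type*} [Fintype V]

open Classical in
/-- number of pairs with a property -/
noncomputable def cnt2 (P : V → V → Prop) : ℕ :=
  ((univ : Finset (V × V)).filter (fun p => P p.1 p.2)).card

open Classical in
/-- number of triples with a property -/
noncomputable def cnt3 (P : V → V → V → Prop) : ℕ :=
  ((univ : Finset (V × V × V)).filter (fun p => P p.1 p.2.1 p.2.2)).card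

end Count

open Classical in
/-- indicator of a proposition -/
noncomputable def ind (P : Prop) : ℝ := if P then 1 else 0

/-! ### Coded 2-trees -/

/-- The number of the base edge of triangle `i`. -/
def bs (b : ℕ → ℕ) (i : ℕ) : ℕ := min (b i) (2 * i)

lemma bs_le (b : ℕ → ℕ) (i : ℕ) : bs b i ≤ 2 * i := min_le_right _ _

/-- The two ends of edge number `e`. -/
def ends (b : ℕ → ℕ) : ℕ → ℕ × ℕ
  | 0 => (0, 1)
  | (e + 1) => (e / 2 + 2,
      if e % 2 = 0 then (ends b (bs b (e / 2))).1 else (ends b (bs b (e / 2))).2)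
termination_by e => e
decreasing_by all_goals (unfold bs; omega)

/-- First end of the base edge of triangle `i`. -/
def pA (b : ℕ → ℕ) (i : ℕ) : ℕ := (ends b (bs b i)).1

/-- Second end of the base edge of triangle `i`. -/
def pB (b : ℕ → ℕ) (i : ℕ) : ℕ := (ends b (bs b i)).2

@[simp] lemma ends_zero (b : ℕ → ℕ) : ends b 0 = (0, 1) := by rw [ends]

lemma ends_odd (b : ℕ → ℕ) (i : ℕ) : ends b (2 * i + 1) = (i + 2, pA b i) := by
  rw [ends]
  have h1 : 2 * i / 2 = i := by omega
  have h2 : 2 * i % 2 = 0 := by omega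
  rw [h1, h2, if_pos rfl]
  rfl

lemma ends_even (b : ℕ → ℕ) (i : ℕ) : ends b (2 * i + 2) = (i + 2, pB b i) := by
  rw [ends]
  have h1 : (2 * i + 1) / 2 = i := by omega
  have h2 : (2 * i + 1) % 2 = 1 := by omega
  rw [h1, h2, if_neg (by norm_num)]
  rfl

/-- The proper 3-colouring (colours `0, 1, 2`) of the coded 2-tree. -/
def col (b : ℕ → ℕ) : ℕ → ℕ
  | 0 => 0
  | 1 => 1
  | (i + 2) => if _h : pA b i < i + 2 ∧ pB b i < i + 2 then
      3 - col b (pA b i) - col b (pB b i) else 0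
termination_by v => v
decreasing_by all_goals omega

/-- `beh b e f`: seen from the root edge `0`, the edge `e` lies behind the edge `f`
(or is equal to it). -/
def beh (b : ℕ → ℕ) : ℕ → ℕ → Prop
  | 0, f => f = 0
  | (e + 1), f => f = e + 1 ∨ beh b (bs b (e / 2)) f
termination_by e => e
decreasing_by all_goals (unfold bs; omega)

open Classical in
/-- The edge of triangle `i` which is nearest to the edge `e`. -/
noncomputable def en (b : ℕ → ℕ) (e i : ℕ) : ℕ :=
  if beh b e (2 * i + 1) then 2 * i + 1 else if beh b e (2 * i + 2) then 2 * i + 2 else bs b i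

open Classical in
/-- The vertex of triangle `i` opposite to `en b e i` (the new vertex of the triangle, seen
from `e`). -/
noncomputable def nv (b : ℕ → ℕ) (e i : ℕ) : ℕ :=
  if beh b e (2 * i + 1) then pB b i else if beh b e (2 * i + 2) then pA b i else i + 2

open Classical in
/-- First of the two edges of triangle `i` other than `en b e i`. -/
noncomputable def ch1 (b : ℕ → ℕ) (e i : ℕ) : ℕ :=
  if beh b e (2 * i + 1) ∨ beh b e (2 * i + 2) then bs b i else 2 * i + 1

open Classical in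
/-- Second of the two edges of triangle `i` other than `en b e i`. -/
noncomputable def ch2 (b : ℕ → ℕ) (e i : ℕ) : ℕ :=
  if beh b e (2 * i + 2) ∧ ¬ beh b e (2 * i + 1) then 2 * i + 1 else 2 * i + 2

section Graph

variable {V : Type*} [DecidableEq V] [Fintype V]

/-- `G` contains the expansion of the coded 2-tree. -/
def HasExp (N : ℕ) (b : ℕ → ℕ) (G : Finset (Finset V)) : Prop :=
  ∃ φ ξ : ℕ → V, Set.InjOn φ (Set.Iic (N + 1)) ∧ Set.InjOn ξ (Set.Iic (2 * N)) ∧
    (∀ v ≤ N + 1, ∀ e ≤ 2 * N, φ v ≠ ξ e) ∧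
    ∀ e ≤ 2 * N, ξ e ∈ lk G (φ (ends b e).1) (φ (ends b e).2)

/-- All nonzero codegrees are at least `t`. -/
def IsCore (t : ℕ) (G : Finset (Finset V)) : Prop :=
  ∀ x y : V, (lk G x y).Nonempty → t ≤ (lk G x y).card

open Classical in
/-- The largest subhypergraph which is a `t`-core. -/
noncomputable def kcore (t : ℕ) (G : Finset (Finset V)) : Finset (Finset V) :=
  (G.powerset.filter (fun F => IsCore t F)).sup id

/-- `(x, y)` is in the shadow of the `t`-core. -/
def sh (t : ℕ) (G : Finset (Finset V)) (x y : V) : Prop := (lk (kcore t G) x y).Nonempty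

end Graph

/-! ### The virtual subtree `T_0` -/

/-- Edges of the subtree `T_0` whose triangles are those with `in0`. -/
def E0 (in0 : ℕ → Prop) (e : ℕ) : Prop := e = 0 ∨ ∃ i, in0 i ∧ (e = 2 * i + 1 ∨ e = 2 * i + 2)

/-- Vertices of `T_0`. -/
def S0 (in0 : ℕ → Prop) (v : ℕ) : Prop := v ≤ 1 ∨ ∃ i, in0 i ∧ v = i + 2

open Classical in
/-- `st in0 b i e`: the first edge `f` on the way from `e` to the root edge `0` which is an edge
of `T_0` or has number `≤ 2 i`. -/
noncomputable def st (in0 : ℕ → Prop) (b : ℕ → ℕ) (i : ℕ) : ℕ → ℕ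
  | 0 => 0
  | (e + 1) => if e + 1 ≤ 2 * i ∨ in0 (e / 2) then e + 1 else st in0 b i (bs b (e / 2))
termination_by e => e
decreasing_by all_goals (unfold bs; omega)

/-- The edge of `T_0` behind (or on) which the edge `e` lies. -/
noncomputable def top (in0 : ℕ → Prop) (b : ℕ → ℕ) (e : ℕ) : ℕ := st in0 b 0 e

/-- `v` is an end of edge `e`. -/
def isEnd (b : ℕ → ℕ) (e v : ℕ) : Prop := v = (ends b e).1 ∨ v = (ends b e).2

/-- edge `e` has an end in `J`. -/
def hitJ (b : ℕ → ℕ) (J : Finset ℕ) (e : ℕ) : Prop := (ends b e).1 ∈ J ∨ (ends b e).2 ∈ J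

open Classical in
/-- number of triangles of `T_0` -/
noncomputable def k0 (N : ℕ) (in0 : ℕ → Prop) : ℕ := ((range N).filter in0).card

open Classical in
/-- number of triangles of `T_0` meeting `J` -/
noncomputable def tJ (N : ℕ) (b : ℕ → ℕ) (in0 : ℕ → Prop) (J : Finset ℕ) : ℕ :=
  ((range N).filter (fun i => in0 i ∧ (i + 2 ∈ J ∨ pA b i ∈ J ∨ pB b i ∈ J))).card

/-- What the growing part of the proof needs to know about `T_0`, `J` and the set `X` of
edges with lists from `B`. -/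
structure Tree0 (N : ℕ) (b : ℕ → ℕ) (in0 : ℕ → Prop) (J : Finset ℕ) (X : ℕ → Prop) : Prop where
  down : ∀ i < N, in0 i → E0 in0 (bs b i)
  inN : ∀ i, in0 i → i < N
  real : ∀ i < N, ¬ in0 i → ¬ X (bs b i)
  xe : ∀ e, X e → E0 in0 e ∧ ¬ hitJ b J e
  js : ∀ v ∈ J, S0 in0 v
  jind : ∀ e, ¬ ((ends b e).1 ∈ J ∧ (ends b e).2 ∈ J)

section Lists

variable {V : Type*} [DecidableEq V] [Fintype V]

open Classical in
/-- The list of admissible expansion vertices of edge `e`. -/
noncomputable def Ls (A B : Finset (Finset V)) (X : ℕ → Prop) (b : ℕ → ℕ) (φ : ℕ → V) (e : ℕ) :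
    Finset V :=
  if X e then lk B (φ (ends b e).1) (φ (ends b e).2) else lk A (φ (ends b e).1) (φ (ends b e).2)

/-- A good placement `φ` of the vertices of the coded 2-tree; light means: list of size
at most `d`. -/
structure Good (N s : ℕ) (b : ℕ → ℕ) (in0 : ℕ → Prop) (J : Finset ℕ) (X : ℕ → Prop)
    (A B : Finset (Finset V)) (φ : ℕ → V) (d : ℕ) (R : Finset V) : Prop where
  inj : Set.InjOn φ (Set.Iic (N + 1))
  avoid : ∀ v ≤ N + 1, φ v ∉ R
  big : ∀ e ≤ 2 * N, ¬ X e → s ≤ (Ls A B X b φ e).card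
  gap : ∀ e ≤ 2 * N, (Ls A B X b φ e).card ≤ d ∨ 3 * N + 3 ≤ (Ls A B X b φ e).card
  light0 : ∀ e ≤ 2 * N, E0 in0 e → ¬ hitJ b J e → (Ls A B X b φ e).card ≤ d
  heavyJ : ∀ e ≤ 2 * N, E0 in0 e → hitJ b J e → d < (Ls A B X b φ e).card
  real : ∀ i < N, ¬ in0 i → d < (Ls A B X b φ (bs b i)).card ∨
    d < (Ls A B X b φ (2 * i + 1)).card ∨ d < (Ls A B X b φ (2 * i + 2)).card
  acc0 : ∀ e ≤ 2 * N, (Ls A B X b φ e).card ≤ d → ∀ i < N, in0 i →
    φ (nv b e i) ∈ Ls A B X b φ e → nv b e i ∈ J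
  acc1 : ∀ e ≤ 2 * N, (Ls A B X b φ e).card ≤ d → ∀ i < N, ¬ in0 i →
    φ (nv b e i) ∈ Ls A B X b φ e → (Ls A B X b φ (en b e i)).card ≤ d

/-- What the growing part of the proof needs to know about the placement of `T_0`:
`M` bounds `n / codegree` of the `J`-edges, `d0` bounds the lists of the other edges of `T_0`,
`R` is a set of reserved vertices. -/
structure Start (N : ℕ) (b : ℕ → ℕ) (in0 : ℕ → Prop) (J : Finset ℕ) (X : ℕ → Prop)
    (A B : Finset (Finset V)) (M : ℝ) (d0 : ℕ) (φ : ℕ → V) (R : Finset V) : Prop where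
  inj : Set.InjOn φ {v | S0 in0 v}
  avoid : ∀ v, S0 in0 v → φ v ∉ R
  cR : R.card + J.card ≤ k0 N in0
  ne : ∀ e, E0 in0 e → ¬ X e → (lk A (φ (ends b e).1) (φ (ends b e).2)).Nonempty
  light : ∀ e, E0 in0 e → ¬ hitJ b J e → (Ls A B X b φ e).card ≤ d0
  heavy : ∀ e, E0 in0 e → hitJ b J e →
    (Fintype.card V : ℝ) ≤ M * ((lk A (φ (ends b e).1) (φ (ends b e).2)).card : ℝ)
  acc : ∀ e, E0 in0 e → ¬ hitJ b J e → ∀ v, S0 in0 v → v ∉ J → ¬ isEnd b e v →
    φ v ∉ Ls A B X b φ e

end Lists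

/-! ### The subtree `T_0` used for `k ≥ 1`: the first `k` triangles and all triangles on edges of
colours `{0, 1}` of this prefix -/

/-- Triangles of `T_0`. -/
def inT (N k : ℕ) (b : ℕ → ℕ) (i : ℕ) : Prop :=
  i < N ∧ (i < k ∨ (bs b i ≤ 2 * k ∧ col b (pA b i) + col b (pB b i) = 1))

/-- Edges of `T_0` with lists in `B`: colours `{0, 1}`, in the prefix, no end in `J`. -/
def XT (k : ℕ) (b : ℕ → ℕ) (J : Finset ℕ) (e : ℕ) : Prop :=
  e ≤ 2 * k ∧ col b (ends b e).1 + col b (ends b e).2 = 1 ∧ ¬ hitJ b J e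

open Classical in
/-- Vertices of colour `c` of the prefix with `k` triangles. -/
noncomputable def VC (k : ℕ) (b : ℕ → ℕ) (c : ℕ) : Finset ℕ :=
  (range (k + 2)).filter (fun v => col b v = c)

/-- Reserved representatives of the `X`-edges and the condition on pairs of disjoint edges of
`T_0`. -/
structure Pairs {V : Type*} [DecidableEq V] [Fintype V] (N k : ℕ) (b : ℕ → ℕ) (c : ℕ)
    (J : Finset ℕ) (A B : Finset (Finset V)) (φ : ℕ → V) (R : Finset V) (ρ : ℕ → V) : Prop where
  xbig : ∀ e, XT k b J e → k ≤ (Ls A B (XT k b J) b φ e).card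
  rep : ∀ e, XT k b J e → ρ e ∈ Ls A B (XT k b J) b φ e ∧ ρ e ∈ R
  rinj : ∀ e e', XT k b J e → XT k b J e' → ρ e = ρ e' → e = e'
  pair : J ≠ VC k b c → ∀ e e', E0 (inT N k b) e → E0 (inT N k b) e' → ¬ hitJ b J e →
    ¬ hitJ b J e' → ¬ XT k b J e → ¬ isEnd b e (ends b e').1 → ¬ isEnd b e (ends b e').2 →
    (Ls A B (XT k b J) b φ e ∩ Ls A B (XT k b J) b φ e').card ≤ J.card

/-! ### The random growth -/

section Growth

variable {V : Type*} [DecidableEq V] [Fintype V]

/-- One growth step: vertex `i + 2` is chosen uniformly in the list (in `A`) of the base edge. -/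
noncomputable def stp (A : Finset (Finset V)) (b : ℕ → ℕ) (i : ℕ) (F : (ℕ → V) → ℝ)
    (φ : ℕ → V) : ℝ :=
  (∑ a ∈ lk A (φ (pA b i)) (φ (pB b i)), F (Function.update φ (i + 2) a)) /
    ((lk A (φ (pA b i)) (φ (pB b i))).card : ℝ)

open Classical in
/-- Expectation of `F` after the growth steps `i < m`, `¬ in0 i`, started at `φ`. -/
noncomputable def gr (A : Finset (Finset V)) (b : ℕ → ℕ) (in0 : ℕ → Prop) :
    ℕ → ((ℕ → V) → ℝ) → (ℕ → V) → ℝ
  | 0, F, φ => F φ
  | (m + 1), F, φ => gr A b in0 m (if in0 m then F else stp A b m F) φ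

/-- `φ` is a possible outcome of the first `m` growth steps started at `φ0`. -/
def Supp (A : Finset (Finset V)) (b : ℕ → ℕ) (in0 : ℕ → Prop) (m : ℕ) (φ0 φ : ℕ → V) : Prop :=
  (∀ v, (∀ i < m, ¬ in0 i → v ≠ i + 2) → φ v = φ0 v) ∧
    ∀ i < m, ¬ in0 i → φ (i + 2) ∈ lk A (φ (pA b i)) (φ (pB b i))

/-- `F` depends only on the coordinates in `S`. -/
def DepOn (S : Set ℕ) (F : (ℕ → V) → ℝ) : Prop :=
  ∀ φ φ' : ℕ → V, (∀ v ∈ S, φ v = φ' v) → F φ = F φ'

/-- Initial placement: constants `z` on `J`, the random vertices `ω` elsewhere. -/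
def ini (N : ℕ) (J : Finset ℕ) (z : ℕ → V) (ω : Fin (N + 2) → V) (v : ℕ) : V :=
  if v ∈ J then z v else if h : v < N + 2 then ω ⟨v, h⟩ else z v

/-- Kernels: nonnegative, with `∑ u, K u a b ≤ d`. -/
def Ker (d : ℝ) (K : V → V → V → ℝ) : Prop :=
  (∀ u a b, 0 ≤ K u a b) ∧ ∀ a b, ∑ u, K u a b ≤ d

end Growth

end MP_182bbb_co.TT
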