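import Pool.Agent.Lib.MP_182bbb_co.TT.Defs
import Pool.Agent.Lib.MP_182bbb_co.H5.Lower

/-!
# MP_182bbb_co, strict 3-uniform tight trees: statements of the modules

Every `XXX_S : Prop` is the statement of one module of the board `tt_modules`; the proofs are
described in `TreePaper.md`. A module file proves `theorem xxx : XXX_S`, possibly from earlier
statements as hypotheses.
-/

open Finset

namespace MP_182bbb_co.TT

open MP_182bbb_co.H5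

/-! ### Combinatorics of the coded 2-tree -/

/-- TREE: elementary facts on the coding. -/
def TREE_S : Prop := ∀ b : ℕ → ℕ,
  (∀ e, (ends b e).1 ≤ (e + 1) / 2 + 1 ∧ (ends b e).2 ≤ (e + 1) / 2 + 1 ∧
    (ends b e).1 ≠ (ends b e).2) ∧
  (∀ i, pA b i ≤ i + 1 ∧ pB b i ≤ i + 1 ∧ pA b i ≠ pB b i) ∧
  (∀ v, col b v ≤ 2) ∧
  (∀ e, col b (ends b e).1 ≠ col b (ends b e).2) ∧
  (∀ i, col b (i + 2) + col b (pA b i) + col b (pB b i) = 3) ∧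
  (∀ e f, isEnd b e (ends b f).1 → isEnd b e (ends b f).2 → e = f)

/-- ROOT: the 2-tree seen from an arbitrary edge `e`. -/
def ROOT_S : Prop := ∀ b : ℕ → ℕ,
  (∀ e, beh b e e) ∧ (∀ e f, beh b e f → f ≤ e) ∧
  (∀ (N e : ℕ) (f : ℕ → ℕ), e ≤ 2 * N →
    ∑ x ∈ range (2 * N + 1), f x = f e + ∑ i ∈ range N, (f (ch1 b e i) + f (ch2 b e i))) ∧
  (∀ (N e : ℕ) (w : ℕ → ℕ), e ≤ 2 * N →
    ∑ v ∈ range (N + 2), w v = w (ends b e).1 + w (ends b e).2 + ∑ i ∈ range N, w (nv b e i)) ∧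
  (∀ e i, ({en b e i, ch1 b e i, ch2 b e i} : Finset ℕ) = {bs b i, 2 * i + 1, 2 * i + 2}) ∧
  (∀ e i, ({nv b e i, (ends b (en b e i)).1, (ends b (en b e i)).2} : Finset ℕ)
    = {i + 2, pA b i, pB b i}) ∧
  (∀ e i, ∃ p q, (ends b (en b e i) = (p, q) ∨ ends b (en b e i) = (q, p)) ∧
    (ends b (ch1 b e i) = (nv b e i, p) ∨ ends b (ch1 b e i) = (p, nv b e i)) ∧
    (ends b (ch2 b e i) = (nv b e i, q) ∨ ends b (ch2 b e i) = (q, nv b e i)))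

/-- ROOT0: the 2-tree seen from an edge, and the subtree `T_0`. -/
def ROOT0_S : Prop := ∀ (b : ℕ → ℕ) (in0 : ℕ → Prop), (∀ j, in0 j → E0 in0 (bs b j)) →
  (∀ e, E0 in0 e → S0 in0 (ends b e).1 ∧ S0 in0 (ends b e).2) ∧
  (∀ e i, in0 i → S0 in0 (nv b e i) ∧ E0 in0 (en b e i) ∧ E0 in0 (ch1 b e i) ∧
    E0 in0 (ch2 b e i)) ∧
  (∀ e i, E0 in0 e → ¬ in0 i → ¬ beh b e (2 * i + 1) ∧ ¬ beh b e (2 * i + 2) ∧
    en b e i = bs b i ∧ nv b e i = i + 2) ∧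
  (∀ i e, E0 in0 e → st in0 b i e = e) ∧
  (∀ i e, e ≤ 2 * i → st in0 b i e = e) ∧
  (∀ i e, beh b e (st in0 b i e) ∧ (E0 in0 (st in0 b i e) ∨ st in0 b i e ≤ 2 * i)) ∧
  (∀ e, E0 in0 (top in0 b e)) ∧
  (∀ i e, ¬ in0 i → beh b e (2 * i + 1) → st in0 b (i + 1) e = 2 * i + 1) ∧
  (∀ i e, ¬ in0 i → beh b e (2 * i + 2) → st in0 b (i + 1) e = 2 * i + 2) ∧
  (∀ e i, in0 i → nv b e i = nv b (top in0 b e) i ∧ en b e i = en b (top in0 b e) i) ∧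
  (∀ e v, isEnd b e v → S0 in0 v → isEnd b (top in0 b e) v) ∧
  (∀ e v, E0 in0 e → S0 in0 v → isEnd b e v ∨ ∃ i, in0 i ∧ v = nv b e i) ∧
  (∀ e i, ¬ isEnd b e (nv b e i))

open Classical in
/-- TZERO: the subtree `inT N k b`. -/
def TZERO_S : Prop := ∀ (N k : ℕ) (b : ℕ → ℕ) (c : ℕ) (J : Finset ℕ), 2 ≤ N → b 1 = 0 → 1 ≤ k →
  k ≤ N → c ≤ 1 → J ⊆ VC k b c →
  Tree0 N b (inT N k b) J (XT k b J) ∧
  k ≤ k0 N (inT N k b) ∧ 2 ≤ k0 N (inT N k b) ∧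
  ((range (2 * N + 1)).filter (fun e => E0 (inT N k b) e ∧ ¬ hitJ b J e)).card
    + tJ N b (inT N k b) J + J.card = 2 * k0 N (inT N k b) + 1 ∧
  J.card ≤ tJ N b (inT N k b) J ∧
  (J = VC k b c → k ≤ tJ N b (inT N k b) J) ∧
  ((range (2 * N + 1)).filter (fun e => XT k b J e)).card + J.card ≤ k ∧
  (J ≠ VC k b c → (VC k b c).card ≤ (VC k b (1 - c)).card →
    J.card + 2 ≤ k0 N (inT N k b)) ∧
  (∀ e, E0 (inT N k b) e → ¬ hitJ b J e →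
    (XT k b J e ↔ col b (ends b e).1 ≠ 2 ∧ col b (ends b e).2 ≠ 2))

/-! ### The end of the argument -/

/-- FIN: Hall's theorem for the light edges, greedy choice for the others. -/
def FIN_S : Prop := ∀ (V : Type) [Fintype V] [DecidableEq V] (G : Finset (Finset V)) (N : ℕ)
  (b : ℕ → ℕ) (φ : ℕ → V) (L : ℕ → Finset V) (Λ : Finset ℕ),
  Set.InjOn φ (Set.Iic (N + 1)) →
  (∀ e ≤ 2 * N, L e ⊆ lk G (φ (ends b e).1) (φ (ends b e).2)) →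
  (∀ e ≤ 2 * N, e ∉ Λ → 3 * N + 3 ≤ (L e).card) →
  (∀ F ⊆ Λ, F.card ≤ (F.biUnion (fun e => L e \ (range (N + 2)).image φ)).card) →
  HasExp N b G

open Classical in
/-- STAR: the inequality (*) of the paper. -/
def STAR_S : Prop := ∀ (V : Type) [Fintype V] [DecidableEq V] (A B : Finset (Finset V))
  (N s : ℕ) (b : ℕ → ℕ) (in0 : ℕ → Prop) (J : Finset ℕ) (X : ℕ → Prop) (φ : ℕ → V) (d : ℕ)
  (R : Finset V), Tree0 N b in0 J X → Good N s b in0 J X A B φ d R →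
  ∀ e ≤ 2 * N, (Ls A B X b φ e).card ≤ d → ∀ U : Finset V,
  φ (ends b e).1 ∉ U → φ (ends b e).2 ∉ U →
  (∀ i < N, in0 i → φ (nv b e i) ∈ U → nv b e i ∈ J) →
  (∀ i < N, ¬ in0 i → φ (nv b e i) ∈ U → (Ls A B X b φ (en b e i)).card ≤ d) →
  ((range (2 * N + 1)).filter (fun f => (Ls A B X b φ f).card ≤ d)).card +
    ((range (N + 2)).filter (fun v => φ v ∈ U)).card + tJ N b in0 J ≤ 2 * N + 1

/-- CORE: a good placement gives the expansion (`k ≥ 1`). -/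
def CORE_S : Prop := ∀ (V : Type) [Fintype V] [DecidableEq V] (G A B : Finset (Finset V))
  (N k : ℕ) (b : ℕ → ℕ) (c : ℕ) (J : Finset ℕ) (φ ρ : ℕ → V) (d : ℕ) (R : Finset V),
  IsUniform 3 G → A ⊆ G → B ⊆ G → 2 ≤ N → b 1 = 0 → 1 ≤ k → k ≤ N → c ≤ 1 →
  (VC k b c).card ≤ (VC k b (1 - c)).card → J ⊆ VC k b c →
  Good N (2 * N + 1 - k) b (inT N k b) J (XT k b J) A B φ d R →
  Pairs N k b c J A B φ R ρ → HasExp N b G

/-- CORE0: a good placement gives the expansion (`k = 0`). -/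
def CORE0_S : Prop := ∀ (V : Type) [Fintype V] [DecidableEq V] (G A : Finset (Finset V))
  (N : ℕ) (b : ℕ → ℕ) (φ : ℕ → V) (d : ℕ) (R : Finset V),
  IsUniform 3 G → A ⊆ G → 2 ≤ N →
  Good N (2 * N + 1) b (fun _ => False) ∅ (fun _ => False) A A φ d R → HasExp N b G

/-! ### Growth -/

/-- GRB: basic properties of the growth. -/
def GRB_S : Prop := ∀ (V : Type) [Fintype V] [DecidableEq V] (A : Finset (Finset V))
  (b : ℕ → ℕ) (in0 : ℕ → Prop),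
  (∀ (m : ℕ) (F F' : (ℕ → V) → ℝ) (φ0 : ℕ → V), (∀ φ, Supp A b in0 m φ0 φ → F φ ≤ F' φ) →
    gr A b in0 m F φ0 ≤ gr A b in0 m F' φ0) ∧
  (∀ (m : ℕ) (F F' : (ℕ → V) → ℝ) (φ0 : ℕ → V),
    gr A b in0 m (fun φ => F φ + F' φ) φ0 = gr A b in0 m F φ0 + gr A b in0 m F' φ0) ∧
  (∀ (m : ℕ) (c : ℝ) (F : (ℕ → V) → ℝ) (φ0 : ℕ → V),
    gr A b in0 m (fun φ => c * F φ) φ0 = c * gr A b in0 m F φ0) ∧
  (∀ (m : ℕ) (c : ℝ) (φ0 : ℕ → V), 0 ≤ c →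
    0 ≤ gr A b in0 m (fun _ => c) φ0 ∧ gr A b in0 m (fun _ => c) φ0 ≤ c) ∧
  (∀ (m m' : ℕ) (F : (ℕ → V) → ℝ) (φ0 : ℕ → V), m ≤ m' → (∀ φ, 0 ≤ F φ) →
    DepOn {v | S0 in0 v ∨ v < m + 2} F → gr A b in0 m' F φ0 ≤ gr A b in0 m F φ0)

/-- TRF: transfer of a kernel along the growth. -/
def TRF_S : Prop := ∀ (V : Type) [Fintype V] [DecidableEq V] (A : Finset (Finset V))
  (b : ℕ → ℕ) (in0 : ℕ → Prop), (∀ j, in0 j → E0 in0 (bs b j)) →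
  ∀ m i : ℕ, i ≤ m → ∀ e ≤ 2 * m, ∀ v, (S0 in0 v ∨ v < i + 2) →
  ∀ (d : ℝ) (K : V → V → V → ℝ), 0 ≤ d → Ker d K →
  ∃ K' : V → V → V → ℝ, Ker d K' ∧ ∀ Rf : (ℕ → V) → ℝ, (∀ φ, 0 ≤ Rf φ) →
    DepOn {v | S0 in0 v ∨ v < i + 2} Rf → ∀ φ0 : ℕ → V,
    gr A b in0 m (fun φ => Rf φ * K (φ v) (φ (ends b e).1) (φ (ends b e).2)) φ0 ≤
      gr A b in0 i (fun φ => Rf φ * K' (φ v) (φ (ends b (st in0 b i e)).1)
        (φ (ends b (st in0 b i e)).2)) φ0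

/-- DENS: the law of a real triple has bounded density. -/
def DENS_S : Prop := ∀ (V : Type) [Fintype V] [DecidableEq V] (N : ℕ) (b : ℕ → ℕ)
  (in0 : ℕ → Prop) (J : Finset ℕ) (X : ℕ → Prop) (A B : Finset (Finset V)) (M : ℝ) (d0 : ℕ)
  (z : ℕ → V) (Ω : Finset (Fin (N + 2) → V)) (R : (Fin (N + 2) → V) → Finset V),
  Tree0 N b in0 J X → IsUniform 3 A → 1 ≤ M →
  (∀ ω ∈ Ω, Start N b in0 J X A B M d0 (ini N J z ω) (R ω)) →
  ∀ i < N, ¬ in0 i → ∀ H : V → V → V → ℝ, (∀ x y w, 0 ≤ H x y w) →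
  ∑ ω ∈ Ω, gr A b in0 N (fun φ => H (φ (i + 2)) (φ (pA b i)) (φ (pB b i))) (ini N J z ω) ≤
    M * (Fintype.card V : ℝ) ^ N * ∑ p : V, ∑ q : V, ∑ a ∈ lk A p q, H a p q

/-- ACC1: a vertex of `T_0` in the list of an edge outside `T_0`. -/
def ACC1_S : Prop := ∀ (V : Type) [Fintype V] [DecidableEq V] (N : ℕ) (b : ℕ → ℕ)
  (in0 : ℕ → Prop) (J : Finset ℕ) (X : ℕ → Prop) (A : Finset (Finset V))
  (z : ℕ → V) (Ω : Finset (Fin (N + 2) → V)), Tree0 N b in0 J X →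
  ∀ e ≤ 2 * N, ∀ v, S0 in0 v → v ∉ J → ¬ isEnd b (top in0 b e) v → ∀ d : ℕ,
  ∑ ω ∈ Ω, gr A b in0 N (fun φ => ind ((lk A (φ (ends b e).1) (φ (ends b e).2)).card ≤ d ∧
    φ v ∈ lk A (φ (ends b e).1) (φ (ends b e).2))) (ini N J z ω) ≤
      d * (Fintype.card V : ℝ) ^ (N + 1)

/-- ACC3: a grown vertex with heavy base edge in the list of an edge not behind it. -/
def ACC3_S : Prop := ∀ (V : Type) [Fintype V] [DecidableEq V] (A : Finset (Finset V))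
  (N : ℕ) (b : ℕ → ℕ) (in0 : ℕ → Prop), (∀ j, in0 j → E0 in0 (bs b j)) →
  ∀ (Lf : V → V → Finset V) (d D : ℕ), 0 < D → ∀ e ≤ 2 * N, ∀ i < N, ¬ in0 i →
  ¬ beh b e (2 * i + 1) → ¬ beh b e (2 * i + 2) → ∀ φ0 : ℕ → V,
  gr A b in0 N (fun φ => ind ((Lf (φ (ends b e).1) (φ (ends b e).2)).card ≤ d ∧
    φ (i + 2) ∈ Lf (φ (ends b e).1) (φ (ends b e).2) ∧
    D < (lk A (φ (pA b i)) (φ (pB b i))).card)) φ0 ≤ (d : ℝ) / D

/-- ACC4: an end of the base edge in the list of an edge behind a heavy child edge. -/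
def ACC4_S : Prop := ∀ (V : Type) [Fintype V] [DecidableEq V] (N : ℕ) (b : ℕ → ℕ)
  (in0 : ℕ → Prop) (J : Finset ℕ) (X : ℕ → Prop) (A B : Finset (Finset V)) (M : ℝ) (d0 : ℕ)
  (z : ℕ → V) (Ω : Finset (Fin (N + 2) → V)) (R : (Fin (N + 2) → V) → Finset V),
  Tree0 N b in0 J X → IsUniform 3 A → 1 ≤ M →
  (∀ ω ∈ Ω, Start N b in0 J X A B M d0 (ini N J z ω) (R ω)) →
  ∀ (Lf : V → V → Finset V) (d D : ℕ), ∀ e ≤ 2 * N, ∀ i < N, ¬ in0 i →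
  (beh b e (2 * i + 1) →
    ∑ ω ∈ Ω, gr A b in0 N (fun φ => ind ((Lf (φ (ends b e).1) (φ (ends b e).2)).card ≤ d ∧
      φ (pB b i) ∈ Lf (φ (ends b e).1) (φ (ends b e).2) ∧
      D < (lk A (φ (i + 2)) (φ (pA b i))).card)) (ini N J z ω) ≤
      M * (Fintype.card V : ℝ) ^ N * (d * cnt2 (fun x y : V => D < (lk A x y).card))) ∧
  (beh b e (2 * i + 2) →
    ∑ ω ∈ Ω, gr A b in0 N (fun φ => ind ((Lf (φ (ends b e).1) (φ (ends b e).2)).card ≤ d ∧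
      φ (pA b i) ∈ Lf (φ (ends b e).1) (φ (ends b e).2) ∧
      D < (lk A (φ (i + 2)) (φ (pB b i))).card)) (ini N J z ω) ≤
      M * (Fintype.card V : ℝ) ^ N * (d * cnt2 (fun x y : V => D < (lk A x y).card)))

/-- NOC: the growth avoids collisions with positive probability, up to accidents of type 1. -/
def NOC_S : Prop := ∀ (V : Type) [Fintype V] [DecidableEq V] (N s : ℕ) (b : ℕ → ℕ)
  (in0 : ℕ → Prop) (J : Finset ℕ) (X : ℕ → Prop) (A B : Finset (Finset V)) (M : ℝ) (d0 : ℕ)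
  (φ0 : ℕ → V) (R : Finset V), 2 ≤ N → N + 1 ≤ s → Tree0 N b in0 J X → IsUniform 3 A →
  IsCore s A → Start N b in0 J X A B M d0 φ0 R →
  (2 / (N + 1) : ℝ) ^ N ≤ gr A b in0 N (fun φ => ind (
    (Set.InjOn φ (Set.Iic (N + 1)) ∧ ∀ v ≤ N + 1, φ v ∉ R) ∨
    ∃ i < N, ¬ in0 i ∧ ∃ v, S0 in0 v ∧ v ∉ J ∧ ¬ isEnd b (top in0 b (bs b i)) v ∧
      (lk A (φ (pA b i)) (φ (pB b i))).card ≤ 3 * N + 3 ∧
      φ v ∈ lk A (φ (pA b i)) (φ (pB b i)))) φ0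

/-- GROW: many starts give a good placement. -/
def GROW_S : Prop := ∀ (N s : ℕ) (b : ℕ → ℕ) (in0 : ℕ → Prop) (J : Finset ℕ) (X : ℕ → Prop),
  2 ≤ N → N + 1 ≤ s → Tree0 N b in0 J X → ∀ (c M C : ℝ) (d0 : ℕ), 0 < c →
  ∃ (Dm : ℕ) (ε : ℝ) (n0 : ℕ), 0 < ε ∧ ∀ (V : Type) [Fintype V] [DecidableEq V]
    (A B : Finset (Finset V)) (z : ℕ → V) (Ω : Finset (Fin (N + 2) → V))
    (R : (Fin (N + 2) → V) → Finset V),
    n0 ≤ Fintype.card V → IsUniform 3 A → IsCore s A →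
    (∀ D : ℕ, (D : ℝ) * cnt2 (fun x y : V => D < (lk A x y).card) ≤
      C * (Fintype.card V : ℝ) ^ 2) →
    (cnt3 (fun x y w : V => ({x, y, w} : Finset V) ∈ A ∧ (lk A x y).card ≤ Dm ∧
      (lk A x w).card ≤ Dm ∧ (lk A y w).card ≤ Dm) : ℝ) ≤ ε * (Fintype.card V : ℝ) ^ 2 →
    c * (Fintype.card V : ℝ) ^ (N + 2) ≤ (Ω.card : ℝ) →
    (∀ ω ∈ Ω, Start N b in0 J X A B M d0 (ini N J z ω) (R ω)) →
    ∃ ω ∈ Ω, ∃ (φ : ℕ → V) (d : ℕ), (∀ v, S0 in0 v → φ v = ini N J z ω v) ∧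
      Good N s b in0 J X A B φ d (R ω)

/-! ### The starts -/

open Classical in
/-- BLOW: complete blow-ups of a dense ternary relation. -/
def BLOW_S : Prop := ∀ (m : ℕ) (δ : ℝ), 0 < δ → ∃ c : ℝ, 0 < c ∧
  ∀ (V : Type) [Fintype V] [DecidableEq V] (cl : Fin m → ℕ) (Tr : V → V → V → Prop),
  δ * (Fintype.card V : ℝ) ^ 3 ≤ cnt3 Tr →
  c * (Fintype.card V : ℝ) ^ m ≤ ((univ : Finset (Fin m → V)).filter (fun ω =>
    ∀ i j l, cl i = 0 → cl j = 1 → cl l = 2 → Tr (ω i) (ω j) (ω l))).card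

open Classical in
/-- COORD: counting functions `ω` by coordinates. -/
def COORD_S : Prop := ∀ (m : ℕ) (V : Type) [Fintype V] [DecidableEq V]
  (Lf : V → V → Finset V) (d : ℕ),
  (∀ a a' v : Fin m, v ≠ a → v ≠ a' →
    ((univ : Finset (Fin m → V)).filter (fun ω => (Lf (ω a) (ω a')).card ≤ d ∧
      ω v ∈ Lf (ω a) (ω a'))).card * Fintype.card V ≤ d * Fintype.card V ^ m) ∧
  (∀ a a' e e' : Fin m, a ≠ a' → a ≠ e → a ≠ e' → a' ≠ e → a' ≠ e' →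
    ∀ (L : V → V → Finset V) (P : V → V → Prop) (q : ℕ) (κ : ℝ), 0 ≤ κ →
    (∀ Z : Finset V, Z.card = q →
      (cnt2 (fun x y => P x y ∧ Z ⊆ L x y) : ℝ) ≤ κ * (Fintype.card V : ℝ) ^ 2) →
    (((univ : Finset (Fin m → V)).filter (fun ω => (Lf (ω e) (ω e')).card ≤ d ∧
      P (ω a) (ω a') ∧ q ≤ (L (ω a) (ω a') ∩ Lf (ω e) (ω e')).card)).card : ℝ) ≤
      2 ^ d * κ * (Fintype.card V : ℝ) ^ m)

open Classical in
/-- CLEAN: cleaning the set of triples. `Z` is the set of popular vertices. -/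
def CLEAN_S : Prop := ∀ (V : Type) [Fintype V] [DecidableEq V] (A : Finset (Finset V))
  (Tr Tr0 : V → V → V → Prop) (Z : Finset V) (δ ρ η : ℝ), 0 ≤ ρ → 0 ≤ η →
  (∀ x x' y, Tr0 x x' y → Tr x x' y ∧ Z ⊆ lk A x y) →
  δ * (Fintype.card V : ℝ) ^ 3 ≤ cnt3 Tr0 →
  (δ - 2 * ρ - 2 * Z.card * η) * (Fintype.card V : ℝ) ^ 3 ≤ cnt3 (fun x x' y => Tr0 x x' y ∧
    ρ * (Fintype.card V : ℝ) ≤ ((univ : Finset V).filter (fun u => Tr x u y)).card ∧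
    ρ * (Fintype.card V : ℝ) ≤ ((univ : Finset V).filter (fun u => Tr u x' y)).card ∧
    (∀ z ∈ Z, η * (Fintype.card V : ℝ) ≤ (lk A z x).card) ∧
    (∀ z ∈ Z, η * (Fintype.card V : ℝ) ≤ (lk A z y).card))

/-- OMEGA: many starts (`k ≥ 1`). Roles: `x` for colour `1 - c`, `x'` for colour `c`, `y` for
colour `2`. -/
def OMEGA_S : Prop := ∀ (N k : ℕ) (b : ℕ → ℕ) (c : ℕ) (J : Finset ℕ), 2 ≤ N → b 1 = 0 →
  1 ≤ k → k ≤ N → c ≤ 1 → (VC k b c).card ≤ (VC k b (1 - c)).card → J ⊆ VC k b c →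
  ∀ (δ : ℝ) (d0 : ℕ), 0 < δ → ∃ (c' M δ' : ℝ) (n0 : ℕ), 0 < c' ∧ 0 < δ' ∧
  ∀ (V : Type) [Fintype V] [DecidableEq V] (A B : Finset (Finset V)) (Tr : V → V → V → Prop)
    (z : ℕ → V), n0 ≤ Fintype.card V → IsUniform 3 A → IsUniform 3 B → IsCore k B →
    (∀ x x' y, Tr x x' y → (lk A x y).Nonempty ∧ (lk A x' y).Nonempty ∧ (lk B x x').Nonempty) →
    Set.InjOn z (J : Set ℕ) →
    δ * (Fintype.card V : ℝ) ^ 3 ≤ cnt3 (fun x x' y => Tr x x' y ∧ (lk A x y).card ≤ d0 ∧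
      (lk A x' y).card ≤ d0 ∧ (lk B x x').card ≤ d0 ∧ ∀ v ∈ J, z v ∈ lk A x y) →
    (J ≠ VC k b c → ∀ Z' : Finset V, Z'.card = J.card + 1 →
      (cnt3 (fun x x' y => Tr x x' y ∧ Z' ⊆ lk A x y) : ℝ) ≤ δ' * (Fintype.card V : ℝ) ^ 3 ∧
      (cnt3 (fun x x' y => Tr x x' y ∧ Z' ⊆ lk A x' y) : ℝ) ≤
        δ' * (Fintype.card V : ℝ) ^ 3) →
    ∃ (Ω : Finset (Fin (N + 2) → V)) (R : (Fin (N + 2) → V) → Finset V)
      (ρ : (Fin (N + 2) → V) → ℕ → V), c' * (Fintype.card V : ℝ) ^ (N + 2) ≤ (Ω.card : ℝ) ∧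
      ∀ ω ∈ Ω, Start N b (inT N k b) J (XT k b J) A B M d0 (ini N J z ω) (R ω) ∧
        Pairs N k b c J A B (ini N J z ω) (R ω) (ρ ω)

/-! ### Global arguments -/

/-- LL: the local lemma, `k ≥ 1`. -/
def LL_S : Prop := ∀ (N : ℕ) (b : ℕ → ℕ) (k : ℕ) (δ : ℝ), 2 ≤ N → b 1 = 0 → 1 ≤ k → k ≤ N →
  0 < δ → ∃ n0 : ℕ, ∀ (V : Type) [Fintype V] [DecidableEq V] (G : Finset (Finset V)),
  n0 ≤ Fintype.card V → IsUniform 3 G →
  δ * (Fintype.card V : ℝ) ^ 3 ≤ cnt3 (fun x x' y : V => sh (2 * N + 1 - k) G x y ∧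
    sh (2 * N + 1 - k) G x' y ∧ sh k G x x') → HasExp N b G

/-- LL0: the local lemma, `k = 0`. -/
def LL0_S : Prop := ∀ (N : ℕ) (b : ℕ → ℕ) (δ : ℝ), 2 ≤ N → 0 < δ → ∃ n0 : ℕ,
  ∀ (V : Type) [Fintype V] [DecidableEq V] (G : Finset (Finset V)),
  n0 ≤ Fintype.card V → IsUniform 3 G →
  δ * (Fintype.card V : ℝ) ^ 2 ≤ cnt2 (fun x y : V => sh (2 * N + 1) G x y) → HasExp N b G

/-- PEEL: cores and peeling. -/
def PEEL_S : Prop := ∀ (V : Type) [Fintype V] [DecidableEq V] (G : Finset (Finset V)),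
  IsUniform 3 G →
  (∀ t, kcore t G ⊆ G ∧ IsCore t (kcore t G)) ∧
  (∀ t F, F ⊆ G → IsCore t F → F ⊆ kcore t G) ∧
  (∀ M, 2 * G.card ≤ ∑ t ∈ Icc 1 M, cnt2 (fun x y : V => sh t G x y)
    + 2 * (kcore (M + 1) G).card) ∧
  (∀ t, 2 * G.card ≤ t * cnt2 (fun x y : V => (lk G x y).Nonempty)
    + 2 * (kcore (t + 1) G).card)

/-- GREED: large nonzero codegrees give the expansion. -/
def GREED_S : Prop := ∀ (V : Type) [Fintype V] [DecidableEq V] (N : ℕ) (b : ℕ → ℕ)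
  (F : Finset (Finset V)), IsUniform 3 F → F.Nonempty → IsCore (3 * N + 3) F → HasExp N b F

/-- HEAVY: without the expansion there are few heavy pairs. -/
def HEAVY_S : Prop := ∀ (V : Type) [Fintype V] [DecidableEq V] (N : ℕ) (b : ℕ → ℕ)
  (G : Finset (Finset V)), IsUniform 3 G → ¬ HasExp N b G → ∀ F ⊆ G,
  2 * F.card ≤ (3 * N + 2) * cnt2 (fun x y : V => (lk F x y).Nonempty) ∧
  ∀ D : ℕ, D * cnt2 (fun x y : V => D < (lk F x y).card) ≤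
    (9 * N + 6) * cnt2 (fun x y : V => (lk F x y).Nonempty)

/-- ALL: without the expansion there are few triples all of whose pairs are light. -/
def ALL_S : Prop := ∀ (N : ℕ) (b : ℕ → ℕ) (d : ℕ) (ε : ℝ), 0 < ε → ∃ n0 : ℕ,
  ∀ (V : Type) [Fintype V] [DecidableEq V] (G : Finset (Finset V)),
  n0 ≤ Fintype.card V → IsUniform 3 G → ¬ HasExp N b G →
  (cnt3 (fun x y w : V => ({x, y, w} : Finset V) ∈ G ∧ (lk G x y).card ≤ d ∧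
    (lk G x w).card ≤ d ∧ (lk G y w).card ≤ d) : ℝ) ≤ ε * (Fintype.card V : ℝ) ^ 2

/-- CNT: the counting lemma. -/
def CNT_S : Prop := ∀ (V : Type) [Fintype V] [DecidableEq V] (P Q : V → V → Prop) (τ δ : ℝ),
  0 < τ → 0 ≤ δ → (∀ x y, P x y → P y x) →
  (cnt3 (fun x x' y => P x y ∧ P x' y ∧ Q x x') : ℝ) ≤ δ * (Fintype.card V : ℝ) ^ 3 →
  (cnt2 P : ℝ) + cnt2 Q ≤ (1 + 2 * τ + δ / τ) * (Fintype.card V : ℝ) ^ 2

/-- UPPER: the asymptotic upper bound. -/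
def UPPER_S : Prop := ∀ (N : ℕ) (b : ℕ → ℕ) (ε : ℝ), 2 ≤ N → b 1 = 0 → 0 < ε → ∃ n0 : ℕ,
  ∀ (V : Type) [Fintype V] [DecidableEq V] (G : Finset (Finset V)),
  n0 ≤ Fintype.card V → IsUniform 3 G → ¬ HasExp N b G →
  2 * (G.card : ℝ) ≤ (N + ε) * (Fintype.card V : ℝ) ^ 2

/-- LOWER: the star with `N` centres. -/
def LOWER_S : Prop := ∀ (V : Type) [Fintype V] [DecidableEq V] (N : ℕ) (b : ℕ → ℕ)
  (L : Finset V), L.card ≤ N → ¬ HasExp N b (star L)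

end MP_182bbb_co.TT

namespace MP_182bbb_co.TT

open MP_182bbb_co.H5

/-- A strict 3-uniform tight tree: the edges (triples) can be listed as `e_0, ..., e_{k-1}`
(without repetition, `k ≥ 1`) so that for every `i ≥ 1` the edge `e_i` has exactly two vertices in
`e_0 ∪ ... ∪ e_{i-1}` and both of them lie in one `e_j`, `j < i`. -/
def IsStrictTree {α : Type*} [DecidableEq α] (H : Finset (Finset α)) : Prop :=
  ∃ (k : ℕ) (e : Fin (k + 1) → Finset α), Function.Injective e ∧ univ.image e = H ∧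
    (∀ i, (e i).card = 3) ∧
    ∀ i : Fin (k + 1), 0 < (i : ℕ) → (e i ∩ (Finset.Iio i).biUnion e).card = 2 ∧
      ∃ j < i, e i ∩ (Finset.Iio i).biUnion e ⊆ e j

universe u

/-- BRIDGE: from strict tight trees to coded 2-trees. -/
def BRIDGE_S : Prop := ∀ (α : Type u) [DecidableEq α] (H : Finset (Finset α)), IsStrictTree H →
  IsTightTree H ∧ (2 ≤ H.card → ∃ b : ℕ → ℕ, b 1 = 0 ∧
    ∀ (V : Type) [Fintype V] [DecidableEq V] (G : Finset (Finset V)), IsUniform 3 G →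
      (ContainsCopy (expansion 1 (H5.shadow H)) G ↔ HasExp H.card b G))

end MP_182bbb_co.TT
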